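import Pool.Agent.N625.PT.P
import Pool.Agent.N625.PT.H

/-!
# Chowla's conjecture in progressions for arbitrary polynomials times a linear factor whose constant term is any multiple of
any integer near a random integer with exchangeable blocks of digits

Nothing is used besides Mathlib in the statement: `∑ v ∈ range (b ^ k), (if P v then 0 else p v)` is the probability that
the random integer `v < b ^ k` with the distribution `p` does not have the property `P`.
-/

set_option autoImplicit false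

namespace Pool.Agent.Results.MP_d639b3_nt.ExchangeableConstants

open Finset

/-- The Liouville function on the integers, `λ(-m) = λ(m)` and `λ(0) = 0`. -/
def lam (m : ℤ) : ℤ := if m = 0 then 0 else (-1) ^ ArithmeticFunction.cardFactors m.natAbs

/-- For all `l`, all residue classes `r` modulo `q ≤ k ^ T` and all integers `u`, `v` with `α l |u| ≤ B N` and
`α l |v| ≤ B N`: the sum of `λ(f l (n) (α l n + h))` over the integers `n` with `u ≤ n ≤ v` and `n ≡ r mod q` is at most
`N / k ^ U` in absolute value. -/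
def Small (B T U N k : ℕ) {M : ℕ} (f : Fin M → Polynomial ℤ) (α : Fin M → ℕ) (h : ℤ) : Prop :=
  ∀ l, ∀ q : ℕ, 1 ≤ q → q ≤ k ^ T → ∀ r u v : ℤ, (α l : ℤ) * |u| ≤ B * N → (α l : ℤ) * |v| ≤ B * N →
    |((∑ n ∈ (Icc u v).filter (fun n => n ≡ r [ZMOD q]), lam ((f l).eval n * (α l * n + h)) : ℤ) : ℝ)| ≤ N / (k : ℝ) ^ U

/-- The probability, for the distribution `μ` on the words of `k` digits (the integers `v < b ^ k`), that the word begins with
the `i` digits of `u < b ^ i`. -/
noncomputable def begins (b k : ℕ) (μ : ℕ → ℝ) (i u : ℕ) : ℝ := ∑ w ∈ range (b ^ (k - i)), μ (u * b ^ (k - i) + w)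

/-- `p` is a probability on the words of `k` digits in base `b`, read as integers `v < b ^ k`. There is another probability
`μ` with `p ≤ k ^ T μ` such that after every beginning `u` two different blocks `a`, `a'` of `L` digits can be exchanged:
`p (u a w) = r p (u a' w)` for all endings `w`, with a factor `r` between `η` and `1 / η` which does not depend on `w`; and
given the beginning `u`, each of the two blocks comes next with a probability of at least `η` in the distribution `μ`.
(For `T = 0` one has `μ = p`. For the uniform distribution on a set of words `r` is `1`.) -/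
structure Exchangeable (b L : ℕ) (η : ℝ) (T k : ℕ) (p : ℕ → ℝ) : Prop where
  nonneg : ∀ v, 0 ≤ p v
  sum : ∑ v ∈ range (b ^ k), p v = 1
  dominated : ∃ μ : ℕ → ℝ, (∀ v, 0 ≤ μ v) ∧ ∑ v ∈ range (b ^ k), μ v = 1 ∧ (∀ v < b ^ k, p v ≤ (k : ℝ) ^ T * μ v) ∧
    ∀ i u : ℕ, i + L ≤ k → u < b ^ i → ∃ (a a' : ℕ) (r : ℝ), a < a' ∧ a' < b ^ L ∧ η ≤ r ∧ η * r ≤ 1 ∧
      (∀ w < b ^ (k - (i + L)), p ((b ^ L * u + a) * b ^ (k - (i + L)) + w) = r * p ((b ^ L * u + a') * b ^ (k - (i + L)) + w)) ∧
      η * begins b k μ i u ≤ begins b k μ (i + L) (b ^ L * u + a) ∧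
      η * begins b k μ i u ≤ begins b k μ (i + L) (b ^ L * u + a')

lemma begins_sum (b k : ℕ) (μ : ℕ → ℝ) (i u : ℕ) (hi : i < k) :
    ∑ a ∈ range b, begins b k μ (i + 1) (b * u + a) = begins b k μ i u := by
  unfold begins
  obtain ⟨n, hn⟩ : ∃ n, k - i = n + 1 := ⟨k - i - 1, by omega⟩
  have h1 : k - (i + 1) = n := by omega
  rw [h1, hn, pow_succ, mul_comm (b ^ n) b, Pool.Agent.N625.PT.sum_blocks b (b ^ n)]
  apply sum_congr rfl
  intro a _
  apply sum_congr rfl
  intro w _
  congr 1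
  ring

lemma flex_of {b L T k : ℕ} {η : ℝ} {p : ℕ → ℝ} (hp : Exchangeable b L η T k p) : Pool.Agent.N625.PT.Flex b L η T k p := by
  obtain ⟨h0, h1, μ, m0, m1, m2, m3⟩ := hp
  have hT : (0 : ℝ) ≤ (k : ℝ) ^ T := by positivity
  have hb0 : ∀ i u, 0 ≤ begins b k μ i u := fun i u => sum_nonneg fun w _ => m0 _
  refine ⟨h0, h1, fun i u => (k : ℝ) ^ T * begins b k μ i u, fun i u => mul_nonneg hT (hb0 i u), ?_, ?_, ?_, ?_⟩
  · intro v hv
    refine (m2 v hv).trans (le_of_eq ?_)
    unfold begins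
    simp
  · intro i hi u _
    simp only
    rw [← mul_sum, begins_sum b k μ i u hi]
  · simp only
    have : begins b k μ 0 0 = 1 := by
      unfold begins
      simpa using m1
    rw [this, mul_one]
  · intro i u hi hu
    obtain ⟨a, a', r, q1, q2, q3, q4, q5, q6, q7⟩ := m3 i u hi hu
    refine ⟨a, a', r, q1, q2, q3, q4, q5, ?_, ?_⟩
    · simp only
      calc η * ((k : ℝ) ^ T * begins b k μ i u) = (k : ℝ) ^ T * (η * begins b k μ i u) := by ring
        _ ≤ _ := mul_le_mul_of_nonneg_left q6 hT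
    · simp only
      calc η * ((k : ℝ) ^ T * begins b k μ i u) = (k : ℝ) ^ T * (η * begins b k μ i u) := by ring
        _ ≤ _ := mul_le_mul_of_nonneg_left q7 hT

lemma small_of (B T U N k : ℕ) {M : ℕ} (f : Fin M → Polynomial ℤ) (α : Fin M → ℕ) (h : ℤ)
    (h1 : ∀ l, Pool.Agent.R501.CP.One B T U N k (f l) (α l) h) : Small B T U N k f α h := by
  intro l q hq1 hq2 r u w hu hw
  have h3 := h1 l 0 univ ⟨0, mem_univ _⟩ q hq1 hq2 r u w fun i _ => ⟨hu, hw⟩
  refine le_trans (le_of_eq ?_) h3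
  congr 2
  unfold Pool.Agent.R501.CP.lamSum
  apply sum_congr rfl
  intro n _
  change lam _ = lam _
  rw [Fin.prod_univ_one]
  simp only [Polynomial.eval_add, Polynomial.eval_mul, Polynomial.eval_C, Polynomial.eval_X]

open Classical in
/-- Let `b ≥ 2`, `L ≥ 1`, `0 < η ≤ 1`, `T₀`, `κ ≠ 0`, `B`, `B'`, `T`, `J`, `W` and `U` be fixed and let `k` be large. Let at most
`k ^ T` pairs of a polynomial `f l` with integer coefficients (of any degree) and of an integer `α l ≥ 1` be given, let
`p` be any probability on the words of `k` digits in which blocks of `L` digits can be exchanged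
(`Exchangeable b L η T₀ k p`), and let `c` be any integer with `|c| ≤ B b ^ k`. If `v` is random with the distribution `p` then
the following holds with a probability of at least `1 - 1 / k ^ U` for ALL the integers `q` at a distance of at most
`k ^ W` from `c + κ v` and ALL the factors `1 ≤ h ≤ k ^ J`: for all `l`
`|∑ λ(f l (n) (α l n + h q))| ≤ b ^ k / k ^ U`, where the sum is over the `n ≡ r mod m` in an arbitrary interval `[u, w]` of
integers with `α l |u|, α l |w| ≤ B' b ^ k`, for all residue classes `r` modulo all `m ≤ k ^ T`. -/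
theorem result (b L : ℕ) (hb : 2 ≤ b) (hL : 1 ≤ L) (η : ℝ) (hη0 : 0 < η) (hη1 : η ≤ 1) (T₀ : ℕ) (κ : ℤ) (hκ : κ ≠ 0)
    (B B' T J W U : ℕ) :
    ∃ k₀ : ℕ, ∀ k : ℕ, k₀ ≤ k → ∀ p : ℕ → ℝ, Exchangeable b L η T₀ k p → ∀ c : ℤ, |c| ≤ B * (b : ℤ) ^ k →
      ∀ M : ℕ, M ≤ k ^ T → ∀ (f : Fin M → Polynomial ℤ) (α : Fin M → ℕ), (∀ l, 1 ≤ α l) →
        ∑ v ∈ range (b ^ k), (if ∀ q : ℤ, |q - (c + κ * v)| ≤ (k : ℤ) ^ W → ∀ h : ℕ, 1 ≤ h → h ≤ k ^ J →
          Small B' T U (b ^ k) k f α (h * q) then 0 else p v) ≤ 1 / (k : ℝ) ^ U := by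
  obtain ⟨k₀, hmain⟩ := Pool.Agent.N625.PT.t_poly
    (Pool.Agent.N625.PT.flex_tcls b L hb hL η hη0 hη1 T₀ κ hκ) B B' T J W U
  refine ⟨k₀, fun k hk p hp c hc M hM f α hα => ?_⟩
  refine le_trans (sum_le_sum ?_) (hmain k hk p (flex_of hp) c hc M hM f α hα)
  intro v _
  exact Pool.Agent.N625.PT.ite_mono0 _ _ (p v) (hp.nonneg v)
    fun h2 q hq h hh1 hh2 => small_of B' T U (b ^ k) k f α (h * q) (h2 q hq h hh1 hh2)

end Pool.Agent.Results.MP_d639b3_nt.ExchangeableConstants
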