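import Pool.Agent.N728.QU.AllL

set_option autoImplicit false

/-!
# Chowla's conjecture for almost all linear coefficients, uniformly in the constant term

Let `g` be an integer polynomial of degree `d ≥ 2` with positive leading coefficient. For every `ε > 0`, `K` and `C₂`,
all large `B`, all `T` with `B / (log B)^C₂ ≤ T^(d-1) ≤ K B` and all integers `c` with `|c| ≤ K B T` and
`g(0) + c ≠ 0`: for all but at most `ε B` of the integers `1 ≤ b ≤ B`,

`|∑_{t ≤ T'} λ(g(t) + b t + c)| ≤ ε T` for all `T' ≤ T`.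

Proof (`Agent/N728/QL`, `Agent/N728/QG`, `Agent/N728/QU`): the value is `u v + c'` with `u = t`, `v = b + (g(t) - g(0)) / t`,
`c' = g(0) + c`. Bilinear sums over `u v + c'` with an arbitrary bounded function of `b` do not change if a divisor of
`u v`, composed of primes of a suitable range, is moved from `u` to `v`; by the multiplication table phenomenon of Erdős
few multiplicative windows contain such a divisor. The off-diagonal terms cancel for the functions with mean zero on the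
cells (residue class and block). For the functions constant on the cells the range is shifted, by moving divisors again,
to `T' ≤ B' / (log B')^C`, where the theorem of Bombieri and Vinogradov for the Liouville function applies. All this is
uniform in `c'`.
-/

namespace Pool.Agent.Results.MP_d639b3_nt.AllConstantTerms

open Finset

/-- The Liouville function of `|n|`; its value at `0` is `0`. -/
noncomputable def liouville (n : ℤ) : ℝ := if n = 0 then 0 else (-1) ^ (ArithmeticFunction.cardFactors n.natAbs)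

/-- The polynomial `f(t) = g(t) + b t + c`. -/
def f (g : Polynomial ℤ) (b c : ℤ) (t : ℕ) : ℤ := g.eval (t : ℤ) + b * t + c

open Classical in
/-- The number of the integers `1 ≤ b ≤ B` for which one of the sums over `t ≤ T'`, `T' ≤ T`, exceeds `ε T` in absolute
value. -/
noncomputable def exceptions (g : Polynomial ℤ) (ε : ℝ) (B T : ℕ) (c : ℤ) : ℕ :=
  ((Icc 1 B).filter (fun b : ℕ => ∃ T' : ℕ, T' ≤ T ∧ ε * T < |∑ t ∈ Icc 1 T', liouville (f g b c t)|)).card

lemma f_eq (g : Polynomial ℤ) (b c : ℤ) (t : ℕ) :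
    f g b c t = Pool.Agent.N728.QG.fp g.divX b (g.coeff 0 + c) t := by
  unfold f Pool.Agent.N728.QG.fp
  have h := congrArg (Polynomial.eval (t : ℤ)) (Polynomial.divX_mul_X_add g)
  rw [Polynomial.eval_add, Polynomial.eval_mul, Polynomial.eval_X, Polynomial.eval_C] at h
  rw [← h]
  ring

lemma abs_liouville_le (n : ℤ) : |liouville n| ≤ 1 := by
  unfold liouville
  split_ifs
  · simp
  · rw [abs_pow]; simp

theorem result (g : Polynomial ℤ) (hd : 2 ≤ g.natDegree) (hl : 0 < g.leadingCoeff) :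
    ∀ (ε : ℝ) (K C₂ : ℕ), 0 < ε → ∃ B₀ : ℕ, ∀ B : ℕ, B₀ ≤ B → ∀ (T : ℕ) (c : ℤ), g.coeff 0 + c ≠ 0 →
      (c.natAbs : ℝ) ≤ K * ((B : ℝ) * T) → (B : ℝ) ≤ (T : ℝ) ^ (g.natDegree - 1) * Real.log B ^ C₂ →
      T ^ (g.natDegree - 1) ≤ K * B → (exceptions g ε B T c : ℝ) ≤ ε * B := by
  classical
  intro ε K C₂ hε
  have hdeg : g.divX.natDegree = g.natDegree - 1 := Polynomial.natDegree_divX_eq_natDegree_tsub_one
  have hlead : g.divX.leadingCoeff = g.leadingCoeff := by
    unfold Polynomial.leadingCoeff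
    rw [hdeg, Polynomial.coeff_divX]
    congr 1
    omega
  obtain ⟨e, he⟩ : ∃ e : ℕ, e = g.natDegree - 1 := ⟨_, rfl⟩
  have he1 : 1 ≤ e := by omega
  -- the grid
  obtain ⟨N, hN⟩ := exists_nat_ge (4 / ε)
  have hN0 : (0 : ℝ) < N := lt_of_lt_of_le (by positivity) hN
  have hN1 : 1 ≤ N := by exact_mod_cast hN0
  have hNε : 4 ≤ ε * N := by
    rw [div_le_iff₀ hε] at hN
    linarith
  obtain ⟨K', hK'⟩ : ∃ K' : ℕ, K' = 2 * N * (K + (g.coeff 0).natAbs) := ⟨_, rfl⟩
  obtain ⟨B₁, hF⟩ := Pool.Agent.N728.QU.finalL2u g.divX (by omega) (by rw [hlead]; exact hl)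
    (ε ^ 2 / (2 * N)) (K' + K) (C₂ + 1) (by positivity)
  rw [hdeg, ← he] at hF
  obtain ⟨L, hL⟩ := exists_nat_ge (Real.exp ((2 * N) ^ e))
  obtain ⟨M, hM⟩ : ∃ M : ℕ, M = (4 * N) ^ (2 * e) := ⟨_, rfl⟩
  -- `B` large compared with powers of logarithms
  obtain ⟨B₂, hB₂⟩ : ∃ B₂ : ℕ, ∀ B : ℕ, B₂ ≤ B → (M : ℝ) * Real.log B ^ C₂ ≤ B := by
    have h := (isLittleO_log_rpow_rpow_atTop (C₂ : ℝ) (zero_lt_one' ℝ)).bound
      (show (0 : ℝ) < 1 / (M + 1) by positivity)
    obtain ⟨B₂, h2⟩ := Filter.eventually_atTop.1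
      ((tendsto_natCast_atTop_atTop (R := ℝ)).eventually (h.and (Filter.eventually_ge_atTop (1 : ℝ))))
    refine ⟨B₂, fun B hB => ?_⟩
    obtain ⟨h3, h4⟩ := h2 B hB
    have hlog : 0 ≤ Real.log (B : ℝ) := Real.log_nonneg h4
    rw [Real.rpow_natCast, Real.rpow_one, Real.norm_of_nonneg (by positivity), Real.norm_of_nonneg (by positivity)] at h3
    have h5 : (M : ℝ) * Real.log B ^ C₂ ≤ M * (1 / (M + 1) * B) :=
      mul_le_mul_of_nonneg_left h3 (by positivity)
    refine h5.trans ?_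
    have h6 : (M : ℝ) * (1 / (M + 1) * B) = M / (M + 1) * B := by ring
    rw [h6]
    have h7 : (M : ℝ) / (M + 1) ≤ 1 := by
      rw [div_le_one (by positivity)]
      linarith
    calc (M : ℝ) / (M + 1) * B ≤ 1 * B := mul_le_mul_of_nonneg_right h7 (by positivity)
      _ = B := one_mul _
  refine ⟨max (max B₁ B₂) (max L 3), fun B hB T c hc hcK hBT hTK => ?_⟩
  have hBB1 : B₁ ≤ B := (le_max_left _ _).trans ((le_max_left _ _).trans hB)
  have hBB2 : B₂ ≤ B := (le_max_right _ _).trans ((le_max_left _ _).trans hB)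
  have hBL : L ≤ B := (le_max_left _ _).trans ((le_max_right _ _).trans hB)
  have hB3 : 3 ≤ B := (le_max_right _ _).trans ((le_max_right _ _).trans hB)
  have hB0 : (0 : ℝ) < B := by positivity
  have hlogB : (2 * N : ℝ) ^ e ≤ Real.log B := by
    rw [Real.le_log_iff_exp_le hB0]
    exact hL.trans (by exact_mod_cast hBL)
  have hlogB0 : 0 < Real.log B := lt_of_lt_of_le (by positivity) hlogB
  rw [← he] at hBT hTK
  -- `T` is large
  have hT4 : (4 * N : ℝ) ^ 2 ≤ T := by
    by_contra hlt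
    push Not at hlt
    have h1 : (T : ℝ) ^ e < ((4 * N : ℝ) ^ 2) ^ e := pow_lt_pow_left₀ hlt (by positivity) (by omega)
    have h2 : (T : ℝ) ^ e * Real.log B ^ C₂ < ((4 * N : ℝ) ^ 2) ^ e * Real.log B ^ C₂ :=
      mul_lt_mul_of_pos_right h1 (by positivity)
    have h3 := hB₂ B hBB2
    have h4 : ((M : ℕ) : ℝ) = ((4 * N : ℝ) ^ 2) ^ e := by
      rw [hM]; push_cast; rw [← pow_mul]
    rw [h4] at h3
    linarith
  have hTN : (4 * N : ℝ) ≤ T := by
    have : (1 : ℝ) ≤ 4 * N := by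
      have : (1 : ℝ) ≤ N := by exact_mod_cast hN1
      linarith
    nlinarith
  have hT0 : (0 : ℝ) < T := lt_of_lt_of_le (by positivity) hTN
  -- the grid points
  obtain ⟨τ, hτ⟩ : ∃ τ : ℕ → ℕ, τ = fun j => j * T / N := ⟨_, rfl⟩
  have hτ1 : ∀ j, (τ j : ℝ) ≤ j * T / N := by
    intro j
    rw [hτ]
    have := Nat.cast_div_le (α := ℝ) (m := j * T) (n := N)
    push_cast at this
    exact this
  have hτ2 : ∀ j : ℕ, ((j : ℝ) * T / N) - 1 < τ j := by
    intro j
    rw [hτ]
    have h1 : j * T < N * (j * T / N + 1) := Nat.lt_mul_div_succ (j * T) (show 0 < N by omega)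
    obtain ⟨w, hw⟩ : ∃ w : ℕ, w = j * T / N := ⟨_, rfl⟩
    rw [← hw] at h1
    have h2 : ((j * T : ℕ) : ℝ) < ((N * (w + 1) : ℕ) : ℝ) := by exact_mod_cast h1
    push_cast at h2
    simp only []
    rw [← hw]
    rw [sub_lt_iff_lt_add, div_lt_iff₀ hN0]
    linarith
  have hτT : ∀ j ∈ Icc 1 N, τ j ≤ T := by
    intro j hj
    rw [mem_Icc] at hj
    rw [hτ]
    exact (Nat.div_le_div_right (Nat.mul_le_mul_right T hj.2)).trans (by rw [Nat.mul_div_cancel_left _ (by omega)])
  have hτlow : ∀ j ∈ Icc 1 N, (T : ℝ) / (2 * N) ≤ τ j := by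
    intro j hj
    rw [mem_Icc] at hj
    have h1 := hτ2 j
    have h2 : (T : ℝ) / N ≤ j * T / N := by
      apply div_le_div_of_nonneg_right _ hN0.le
      have : (1 : ℝ) ≤ j := by exact_mod_cast hj.1
      nlinarith
    have h3 : (1 : ℝ) ≤ T / (2 * N) := by
      rw [le_div_iff₀ (by positivity)]
      linarith
    have h4 : (T : ℝ) / N = T / (2 * N) + T / (2 * N) := by
      field_simp
      ring
    linarith
  -- the mean values
  have hcc : ((g.coeff 0 + c).natAbs : ℝ) ≤ (K + (g.coeff 0).natAbs) * ((B : ℝ) * T) := by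
    have h1 : ((g.coeff 0 + c).natAbs : ℝ) ≤ (g.coeff 0).natAbs + c.natAbs := by
      exact_mod_cast Int.natAbs_add_le _ _
    have h2 : (1 : ℝ) ≤ (B : ℝ) * T := by
      have e1 : (1 : ℝ) ≤ B := by
        have : (3 : ℝ) ≤ B := by exact_mod_cast hB3
        linarith
      have e2 : (1 : ℝ) ≤ T := by
        have : (1 : ℝ) ≤ 4 * N := by
          have : (1 : ℝ) ≤ N := by exact_mod_cast hN1
          linarith
        linarith
      nlinarith
    have h3 : ((g.coeff 0).natAbs : ℝ) ≤ (g.coeff 0).natAbs * ((B : ℝ) * T) :=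
      le_mul_of_one_le_right (by positivity) h2
    rw [add_mul]
    linarith
  have hmean : ∀ j ∈ Icc 1 N, ∑ b ∈ Icc 1 B, |∑ t ∈ Icc 1 (τ j), liouville (f g b c t)| ≤
      ε ^ 2 / (2 * N) * ((B : ℝ) * T) := by
    intro j hj
    have hlow := hτlow j hj
    have hup := hτT j hj
    have hupr : (τ j : ℝ) ≤ T := by exact_mod_cast hup
    have h1 : ((g.coeff 0 + c).natAbs : ℝ) ≤ (K' + K : ℕ) * ((B : ℝ) * (τ j : ℝ)) := by
      refine hcc.trans ?_
      have e1 : (T : ℝ) ≤ 2 * N * τ j := by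
        rw [div_le_iff₀ (by positivity)] at hlow
        linarith
      have e2 : ((K + (g.coeff 0).natAbs : ℝ)) * ((B : ℝ) * T) ≤ (K + (g.coeff 0).natAbs : ℝ) * ((B : ℝ) * (2 * N * τ j)) := by
        apply mul_le_mul_of_nonneg_left _ (by positivity)
        exact mul_le_mul_of_nonneg_left e1 hB0.le
      refine e2.trans ?_
      rw [hK']
      push_cast
      have e3 : (0 : ℝ) ≤ K * ((B : ℝ) * τ j) := by positivity
      nlinarith
    have h2 : (B : ℝ) ≤ (τ j : ℝ) ^ e * Real.log B ^ (C₂ + 1) := by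
      have e1 : (T : ℝ) ≤ 2 * N * τ j := by
        rw [div_le_iff₀ (by positivity)] at hlow
        linarith
      calc (B : ℝ) ≤ (T : ℝ) ^ e * Real.log B ^ C₂ := hBT
        _ ≤ (2 * N * τ j : ℝ) ^ e * Real.log B ^ C₂ := by gcongr
        _ = (τ j : ℝ) ^ e * ((2 * N : ℝ) ^ e * Real.log B ^ C₂) := by rw [mul_pow]; ring
        _ ≤ (τ j : ℝ) ^ e * (Real.log B * Real.log B ^ C₂) := by gcongr
        _ = (τ j : ℝ) ^ e * Real.log B ^ (C₂ + 1) := by rw [pow_succ]; ring
    have h3 : (τ j) ^ e ≤ (K' + K) * B := by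
      calc (τ j) ^ e ≤ T ^ e := Nat.pow_le_pow_left hup _
        _ ≤ K * B := hTK
        _ ≤ (K' + K) * B := Nat.mul_le_mul_right _ (by omega)
    have h4 := hF B hBB1 (τ j) (g.coeff 0 + c) hc h1 h2 h3
    have h5 : ∑ b ∈ Icc 1 B, |∑ t ∈ Icc 1 (τ j), liouville (f g b c t)| =
        ∑ b ∈ Icc 1 B, |∑ t ∈ Icc 1 (τ j), Pool.Agent.N728.QG.lam (Pool.Agent.N728.QG.fp g.divX b (g.coeff 0 + c) t)| := by
      apply sum_congr rfl
      intro b _
      congr 1
      apply sum_congr rfl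
      intro t _
      rw [f_eq]
      rfl
    rw [h5]
    refine h4.trans ?_
    gcongr
  -- the exceptional `b`
  have hsub : (Icc 1 B).filter (fun b : ℕ => ∃ T' : ℕ, T' ≤ T ∧ ε * T < |∑ t ∈ Icc 1 T', liouville (f g b c t)|) ⊆
      (Icc 1 N).biUnion (fun j => (Icc 1 B).filter
        (fun b : ℕ => ε / 2 * T < |∑ t ∈ Icc 1 (τ j), liouville (f g b c t)|)) := by
    intro b hb
    rw [mem_filter] at hb
    obtain ⟨hb1, T', hT', hbig⟩ := hb
    rw [mem_biUnion]
    -- the last grid point below `T'`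
    obtain ⟨j, hj⟩ : ∃ j : ℕ, j = N * T' / T := ⟨_, rfl⟩
    have hTpos : 0 < T := by exact_mod_cast hT0
    have hj1 : (j : ℝ) * T ≤ N * T' := by
      rw [hj]
      exact_mod_cast Nat.div_mul_le_self (N * T') T
    have hj2 : (N : ℝ) * T' < (j + 1) * T := by
      rw [hj]
      have h0 := Nat.lt_mul_div_succ (N * T') hTpos
      rw [← hj] at h0 ⊢
      have h' : ((N * T' : ℕ) : ℝ) < ((T * (j + 1) : ℕ) : ℝ) := by exact_mod_cast h0
      push_cast at h'
      linarith
    have hτj : (τ j : ℝ) ≤ T' := by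
      refine (hτ1 j).trans ?_
      rw [div_le_iff₀ hN0]
      linarith
    have hdiff : (T' : ℝ) - τ j ≤ T / N + 1 := by
      have h1 := hτ2 j
      have h2 : (T' : ℝ) ≤ (j + 1) * T / N := by
        rw [le_div_iff₀ hN0]
        linarith
      have h3 : ((j : ℝ) + 1) * T / N = j * T / N + T / N := by ring
      linarith
    have hsum : |∑ t ∈ Icc 1 T', liouville (f g b c t)| ≤
        |∑ t ∈ Icc 1 (τ j), liouville (f g b c t)| + ((T' : ℝ) - τ j) := by
      have hle : τ j ≤ T' := by exact_mod_cast hτj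
      have e1 : Icc 1 T' = Icc 1 (τ j) ∪ Ioc (τ j) T' := by
        ext t
        simp only [mem_Icc, mem_union, mem_Ioc]
        omega
      have e2 : Disjoint (Icc 1 (τ j)) (Ioc (τ j) T') := by
        rw [disjoint_left]
        intro t h1 h2
        rw [mem_Icc] at h1
        rw [mem_Ioc] at h2
        omega
      rw [e1, sum_union e2]
      refine (abs_add_le _ _).trans (add_le_add le_rfl ?_)
      refine (abs_sum_le_sum_abs _ _).trans ?_
      refine (sum_le_sum (fun t _ => abs_liouville_le _)).trans ?_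
      rw [sum_const, Nat.card_Ioc, nsmul_eq_mul, mul_one, Nat.cast_sub hle]
    have hsmall : T / N + 1 ≤ ε / 2 * T := by
      have h0 : 4 * (T : ℝ) ≤ ε * N * T := mul_le_mul_of_nonneg_right hNε hT0.le
      have h1 : (T : ℝ) / N ≤ ε / 4 * T := by
        rw [div_le_iff₀ hN0]
        linarith
      have h2 : 1 ≤ ε / 4 * T := by
        have h3 : (4 : ℝ) * N * ε ≤ T * ε := mul_le_mul_of_nonneg_right hTN hε.le
        linarith
      linarith
    have hbig2 : ε / 2 * T < |∑ t ∈ Icc 1 (τ j), liouville (f g b c t)| := by linarith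
    refine ⟨j, ?_, ?_⟩
    · rw [mem_Icc]
      constructor
      · by_contra h0
        have h0' : j = 0 := by omega
        rw [h0', hτ] at hbig2
        simp only [zero_mul, Nat.zero_div, Icc_eq_empty_of_lt Nat.zero_lt_one, sum_empty, abs_zero] at hbig2
        have : 0 < ε / 2 * (T : ℝ) := by positivity
        linarith
      · rw [hj]
        calc N * T' / T ≤ N * T / T := Nat.div_le_div_right (Nat.mul_le_mul_left N hT')
          _ = N := Nat.mul_div_cancel _ hTpos
    · rw [mem_filter]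
      exact ⟨hb1, hbig2⟩
  have hcard : ∀ j ∈ Icc 1 N, (((Icc 1 B).filter
      (fun b : ℕ => ε / 2 * T < |∑ t ∈ Icc 1 (τ j), liouville (f g b c t)|)).card : ℝ) ≤ ε / N * B := by
    intro j hj
    have h1 := hmean j hj
    set S := (Icc 1 B).filter (fun b : ℕ => ε / 2 * T < |∑ t ∈ Icc 1 (τ j), liouville (f g b c t)|) with hS
    have h2 : (S.card : ℝ) * (ε / 2 * T) ≤ ∑ b ∈ Icc 1 B, |∑ t ∈ Icc 1 (τ j), liouville (f g b c t)| := by
      calc (S.card : ℝ) * (ε / 2 * T) = ∑ b ∈ S, ε / 2 * T := by rw [sum_const, nsmul_eq_mul]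
        _ ≤ ∑ b ∈ S, |∑ t ∈ Icc 1 (τ j), liouville (f g b c t)| :=
            sum_le_sum (fun b hb => (mem_filter.1 hb).2.le)
        _ ≤ _ := sum_le_sum_of_subset_of_nonneg (filter_subset _ _) (fun _ _ _ => abs_nonneg _)
    have h3 := h2.trans h1
    have h4 : (0 : ℝ) < ε / 2 * T := by positivity
    rw [← le_div_iff₀ h4] at h3
    refine h3.trans (le_of_eq ?_)
    field_simp
  unfold exceptions
  have h1 : (((Icc 1 B).filter (fun b : ℕ => ∃ T' : ℕ, T' ≤ T ∧
      ε * T < |∑ t ∈ Icc 1 T', liouville (f g b c t)|)).card : ℝ) ≤ ∑ j ∈ Icc 1 N, (ε / N * B : ℝ) := by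
    have e1 := (card_le_card hsub).trans card_biUnion_le
    have e2 : (((Icc 1 B).filter (fun b : ℕ => ∃ T' : ℕ, T' ≤ T ∧
        ε * T < |∑ t ∈ Icc 1 T', liouville (f g b c t)|)).card : ℝ) ≤ ((∑ j ∈ Icc 1 N, ((Icc 1 B).filter
        (fun b : ℕ => ε / 2 * T < |∑ t ∈ Icc 1 (τ j), liouville (f g b c t)|)).card : ℕ) : ℝ) :=
      Nat.cast_le.2 e1
    rw [Nat.cast_sum] at e2
    exact e2.trans (sum_le_sum hcard)
  refine h1.trans (le_of_eq ?_)
  rw [sum_const, Nat.card_Icc, nsmul_eq_mul]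
  push_cast
  field_simp

end Pool.Agent.Results.MP_d639b3_nt.AllConstantTerms
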