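import Pool.Agent.N913.LM.B4

/-!
# The Liouville function in every linear family of functions

Let `P, φ_1, ..., φ_N : V → ℤ` be arbitrary integer valued functions on an arbitrary set `V` and
`f_c = P + c_1 φ_1 + ... + c_N φ_N`, `c` an integer vector with `|c_j| ≤ H`. For example: the
polynomials of degree less than `N` (`V = ℤ`, `φ_j = x^j`) or polynomials with only `N` coefficients
free; binary forms of degree `N - 1` (`V = ℤ^2`); polynomials in any number of variables; systems of
polynomials. At arbitrary points `v(n)`, `n ∈ I`, the mean square over `c` of the sums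
`∑_n λ(f_c(v(n))) F(n, f_c(u_1(n)), ..., f_c(u_m(n)))`, where `F` is an ARBITRARY function with values
in `[-1, 1]`, is at most the number of special pairs of indices plus `(#I)^2 / (log H)^U`, for every
`U`. A pair of indices is special if a linear relation forces a dependence; in the case of polynomials
the special pairs are those with coinciding points if `m ≤ N - 2`
(`separated_of_polynomials`; `separated_of_forms` is the corresponding fact for binary forms), so
that there is square-root cancellation in mean square as long as `#I ≤ (log H)^U`. In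
particular `λ(f(n+1)) ⋯ λ(f(n+d))`, `n ∈ I`, for 100 percent of the polynomials `f` of degree `d`.

Method: if `v(n)` is separated from the points `u_i(n)` and from the points `v(n'), u_i(n')` by small
vectors `w, w'` (Gaussian elimination), then along the family `c + a w + b w'` the value at `v(n)`
runs through a bilinear family, while the other factors depend on one of `a`, `b` only; Fourier
inversion, Cauchy's inequality and Davenport's bound for `∑ λ(n) e(nα)` give the estimate.
-/

set_option autoImplicit false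

namespace Pool.Agent.Results.MP_d639b3_nt.EveryLinearFamily

open Finset

/-- Liouville's function `λ(|n|)`, with the value `0` at `0` -/
noncomputable def lam (n : ℤ) : ℝ :=
  if n = 0 then 0 else (-1) ^ ArithmeticFunction.cardFactors n.natAbs

/-- Moebius' function `μ(|n|)`, with the value `0` at `0` -/
noncomputable def mob (n : ℤ) : ℝ := ((ArithmeticFunction.moebius n.natAbs : ℤ) : ℝ)

/-- the function `f_c = P + ∑_j c_j φ_j` -/
def fam {V : Type} {N : ℕ} (P : V → ℤ) (φ : Fin N → V → ℤ) (c : Fin N → ℤ) (v : V) : ℤ :=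
  P v + ∑ j, φ j v * c j

/-- the integer vectors `c` with all `|c_j| ≤ H` -/
noncomputable def box (N H : ℕ) : Finset (Fin N → ℤ) :=
  Fintype.piFinset (fun _ => Icc (-(H : ℤ)) H)

/-- some integer combination of the `φ_j` vanishes at the points `u_i` and not at `v` -/
def Separated {V : Type} {N k : ℕ} (φ : Fin N → V → ℤ) (v : V) (u : Fin k → V) : Prop :=
  ∃ w : Fin N → ℤ, (∀ i, ∑ j, φ j (u i) * w j = 0) ∧ ∑ j, φ j v * w j ≠ 0

open Classical in
/-- the number of special pairs: the pairs `(n, n')` such that `v(n)` is not separated from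
`u_1(n), ..., u_m(n)` or not separated from `v(n'), u_1(n'), ..., u_m(n')` -/
noncomputable def special {V ι : Type} {N m : ℕ} (φ : Fin N → V → ℤ) (I : Finset ι) (v : ι → V)
    (u : ι → Fin m → V) : ℕ :=
  #((I ×ˢ I).filter (fun p => ¬ Separated φ (v p.1) (u p.1) ∨
    ¬ Separated φ (v p.1) (Fin.cons (v p.2) (u p.2) : Fin (m + 1) → V)))

/-- a point of `ℤ` is separated from less than `N` other points by the polynomials of degree less
than `N` -/
theorem separated_of_polynomials {N k : ℕ} (hk : k < N) (x : ℤ) (y : Fin k → ℤ)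
    (hy : ∀ i, y i ≠ x) : Separated (fun (j : Fin N) (t : ℤ) => t ^ (j : ℕ)) x y := by
  obtain ⟨w, h1, h2⟩ := Pool.Agent.N913.LM.form_sep (x, 1) (by simp) N k hk (fun i => (y i, 1))
    (fun i => by
      simp only [mul_one, one_mul]
      exact (hy i).symm)
  refine ⟨w, fun i => ?_, ?_⟩
  · have := h1 i
    simpa using this
  · simpa using h2

/-- a point of `ℤ^2` is separated from less than `N` points not proportional to it by the binary
forms of degree `N - 1` -/
theorem separated_of_forms {N k : ℕ} (hk : k < N) (x : ℤ × ℤ) (hx : x ≠ (0, 0)) (y : Fin k → ℤ × ℤ)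
    (hy : ∀ i, x.1 * (y i).2 ≠ x.2 * (y i).1) :
    Separated (fun (j : Fin N) (t : ℤ × ℤ) => t.1 ^ (j : ℕ) * t.2 ^ (N - 1 - j)) x y :=
  Pool.Agent.N913.LM.form_sep x hx N k hk y hy

/-- **The Liouville and Moebius functions in every linear family of functions.** Let `N`, `m`, `A`,
`C`, `U` be nonnegative integers. There is `H₀` such that for all `H ≥ H₀`, all sets `V`, all
functions `P, φ_1, ..., φ_N : V → ℤ`, all finite index sets `I` and all points `v(n), u_1(n), ...,
u_m(n)` of `V`, `n ∈ I`, at which the `|φ_j|` are at most `(log H)^C` and `|P(v(n))| ≤ H (log H)^A`,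
and ALL functions `F(n, y_1, ..., y_m)` with values in `[-1, 1]`, the sum over the integer vectors `c`,
`|c_j| ≤ H`, of the squares of `∑_(n ∈ I) λ(f_c(v(n))) F(n, f_c(u_1(n)), ..., f_c(u_m(n)))`, where
`f_c = P + ∑_j c_j φ_j`, is at most `(2 H + 1)^N (S + (#I)^2 / (log H)^U)`, where `S` is the number of
special pairs; and the same holds for `μ`. -/
theorem result (N m A C U : ℕ) : ∃ H₀ : ℕ, ∀ H : ℕ, H₀ ≤ H →
    ∀ (V ι : Type) (P : V → ℤ) (φ : Fin N → V → ℤ) (I : Finset ι) (v : ι → V) (u : ι → Fin m → V),
      (∀ n ∈ I, |(P (v n) : ℝ)| ≤ H * Real.log H ^ A) →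
      (∀ n ∈ I, ∀ j, |(φ j (v n) : ℝ)| ≤ Real.log H ^ C) →
      (∀ n ∈ I, ∀ i j, |(φ j (u n i) : ℝ)| ≤ Real.log H ^ C) →
      ∀ F : ι → (Fin m → ℤ) → ℝ, (∀ n y, |F n y| ≤ 1) →
        ∑ c ∈ box N H, (∑ n ∈ I, lam (fam P φ c (v n)) * F n (fun i => fam P φ c (u n i))) ^ 2 ≤
          (2 * H + 1) ^ N * (special φ I v u + (#I : ℝ) ^ 2 / Real.log H ^ U) ∧
        ∑ c ∈ box N H, (∑ n ∈ I, mob (fam P φ c (v n)) * F n (fun i => fam P φ c (u n i))) ^ 2 ≤
          (2 * H + 1) ^ N * (special φ I v u + (#I : ℝ) ^ 2 / Real.log H ^ U) := by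
  classical
  obtain ⟨H1, h1⟩ := Pool.Agent.N913.LM.coreL Pool.Agent.N913.LM.lm (by unfold Pool.Agent.N913.LM.lm; simp)
    Pool.Agent.N913.LM.lm_abs Pool.Agent.N913.LM.sup_lm N m A C U
  obtain ⟨H2, h2⟩ := Pool.Agent.N913.LM.coreL Pool.Agent.N913.LM.mb Pool.Agent.N913.LM.mb_zero
    Pool.Agent.N913.LM.mb_abs Pool.Agent.N913.LM.sup_mb N m A C U
  refine ⟨max H1 H2, fun H hH V ι P φ I v u hP hv hu F hF => ?_⟩
  have g1 := h1 H ((le_max_left _ _).trans hH) ι I (fun n => P (v n)) (fun n j => φ j (v n))
    (fun n i => P (u n i)) (fun n i j => φ j (u n i)) hP hv hu F hF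
  have g2 := h2 H ((le_max_right _ _).trans hH) ι I (fun n => P (v n)) (fun n j => φ j (v n))
    (fun n i => P (u n i)) (fun n i j => φ j (u n i)) hP hv hu F hF
  have es : Pool.Agent.N913.LM.clashL I (fun n j => φ j (v n)) (fun n i j => φ j (u n i)) =
      special φ I v u := by
    unfold Pool.Agent.N913.LM.clashL special
    congr 1
    apply filter_congr
    intro p _
    have e : (Fin.cons (fun j => φ j (v p.2)) (fun i j => φ j (u p.2 i)) :
        Fin (m + 1) → Fin N → ℤ) = fun i j => φ j ((Fin.cons (v p.2) (u p.2) : Fin (m + 1) → V) i) := by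
      funext i
      refine Fin.cases ?_ (fun i => ?_) i
      · rfl
      · rfl
    rw [e]
    rfl
  have el : ∀ x : ℤ, Pool.Agent.N913.LM.lm x.natAbs = lam x := by
    intro x
    unfold Pool.Agent.N913.LM.lm lam
    simp only [Int.natAbs_eq_zero]
  rw [es] at g1 g2
  refine ⟨?_, ?_⟩
  · refine le_trans (le_of_eq ?_) g1
    apply sum_congr rfl
    intro c _
    congr 1
    apply sum_congr rfl
    intro n _
    rw [el]
    rfl
  · exact g2

end Pool.Agent.Results.MP_d639b3_nt.EveryLinearFamily
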