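import Mathlib
import Pool.Agent.N792.CH.FinU

/-!
# Chowla's conjecture for almost all quadratic polynomials `a n² + b n + c`, `|c| ≤ C`, in thin families

The coefficients `a ≠ 0` and `b` are fixed, and `x^(5/6+ε) ≤ C ≤ x`. For almost all integers `|c| ≤ C` the functions of
Liouville and of Moebius cancel completely on the values `a n² + b n + c`, `u ≤ n ≤ v`, `n ≡ r (mod q)`, for all
windows `[u, v] ⊆ [-x, x]` and all residue classes to small moduli. The number of the polynomials is smaller than the
range of the arguments and than the distance of consecutive values `a n² + b n`; so far full cancellation was known for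
families with `C ≥ C0 x` only.

Proof. Write a value as `v = d N`, where `d` is composed of the primes `≤ z = x^η` and `N` of the larger primes, and
put `s = x^(3/2+ε) / C ≤ x^(2/3-ε)`. If `N` has no divisor in `(s, x^(1-ε)]` and none near `x`, then
`N` is a prime times a number `≤ s`, and `λ(N) = -∑ (-2)^ω(j)` over the divisors `j ≤ s` of `N`; the sum of this type I
function times `λ(d)` is small by the fundamental lemma, since `∏ (1 - 2 ρ(p) / p)` over `w < p ≤ z` is small for almost
all `c`. Otherwise the difference is, up to few values, a function of the pattern of `N` (the logarithmic cells of its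
prime factors), and it is a combination of boundedly many sums over `m ∣ v` of `λ(d) G(N / m)` with `m` in
`(s, x^(1-ε)]` and arbitrary bounded `G`. The new point is that `λ(d) G(D')` is the convolution of `λ` with a
function supported on the `z`-rough numbers: the part with large argument of `λ` has small sums in all progressions
by the theorem of Siegel-Walfisz-Davenport, so that the estimate of type II of the project `N792` applies to it,
and the other part is supported on the values without prime factors between `exp (√log x)` and `z`, which are rare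
by the method of Turan and Kubilius. Everything is uniform in `b`, `b² ≤ Λ C`; the negative constant terms are
reached by a shift of the argument by about `√(2C)`.
-/

set_option autoImplicit false

namespace Pool.Agent.Results.MP_d639b3_nt.ThinConstantTerms

open Finset

/-- The Liouville function on the integers, with the value `0` at `0`. -/
def lam (m : ℤ) : ℤ := if m = 0 then 0 else (-1) ^ ArithmeticFunction.cardFactors m.natAbs

/-- The Moebius function on the integers, `μ(-m) = μ(m)` and `μ(0) = 0`. -/
def mob (m : ℤ) : ℤ := ArithmeticFunction.moebius m.natAbs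

/-- The integers `u ≤ n ≤ v` with `n ≡ r (mod q)`. -/
noncomputable def args (q : ℕ) (r u v : ℤ) : Finset ℤ := (Icc u v).filter (fun n => n ≡ r [ZMOD q])

/-- **Chowla's conjecture for almost all constant terms in thin families.** Let `a ≠ 0`, `b`, `ε > 0`, `τ > 0` and `Q`
be fixed. For `x ≥ x0` and every `C` with `x^(5/6 + ε) ≤ C ≤ x`, all but at most `τ C` of the integers `|c| ≤ C` have
the following property: for all windows `[u, v]` contained in `[-x, x]` and all residue classes `r` modulo `q`,
`1 ≤ q ≤ Q`, the sums of `λ(f(n))` and of `μ(f(n))`, `f(n) = a n² + b n + c`, over the integers `u ≤ n ≤ v` with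
`n ≡ r (mod q)` are at most `τ x` in absolute value. -/
theorem result (a : ℤ) (ha : a ≠ 0) (b : ℤ) (ε τ : ℝ) (Q : ℕ) (hε : 0 < ε) (hτ : 0 < τ) :
    ∃ x0 : ℕ, ∀ x : ℕ, x0 ≤ x → ∀ C : ℕ, (x : ℝ) ^ (5 / 6 + ε) ≤ C → C ≤ x →
      ∃ Ex ⊆ Icc (-(C : ℤ)) C, (#Ex : ℝ) ≤ τ * C ∧ ∀ c ∈ Icc (-(C : ℤ)) C, c ∉ Ex →
        ∀ q : ℕ, 1 ≤ q → q ≤ Q → ∀ r u v : ℤ, -(x : ℤ) ≤ u → v ≤ x →
          |((∑ n ∈ args q r u v, lam (a * n ^ 2 + b * n + c) : ℤ) : ℝ)| ≤ τ * x ∧
          |((∑ n ∈ args q r u v, mob (a * n ^ 2 + b * n + c) : ℤ) : ℝ)| ≤ τ * x := by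
  obtain ⟨x0, h0⟩ := Pool.Agent.N792.CH.allC Pool.Agent.N792.CH.mainU a ha b ε τ Q hε hτ
  refine ⟨x0, fun x hx C hC hCx => ?_⟩
  obtain ⟨Ex, p1, p2, p3⟩ := h0 x hx C hC hCx
  refine ⟨Ex, p1, p2, fun c hc hcE q hq hqQ r u v hu hv => ?_⟩
  obtain ⟨g1, g2⟩ := p3 c hc hcE q hq hqQ r u v hu hv
  have e1 : ∀ m : ℤ, ((lam m : ℤ) : ℝ) = Pool.Agent.N792.CH.lamZ m := by
    intro m
    unfold lam Pool.Agent.N792.CH.lamZ Pool.Agent.N791.C2.lam
    split_ifs
    · simp
    · push_cast; rfl
  have e2 : ∀ m : ℤ, ((mob m : ℤ) : ℝ) = Pool.Agent.N792.CH.mobZ m := fun m => rfl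
  unfold args
  push_cast
  refine ⟨?_, ?_⟩
  · rw [sum_congr rfl (fun n _ => e1 _)]; exact g1
  · rw [sum_congr rfl (fun n _ => e2 _)]; exact g2

end Pool.Agent.Results.MP_d639b3_nt.ThinConstantTerms
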